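import Pool.Agent.Lib_helper98.RenyiRed

/-!
# Powers of `B Bᴴ` and `Bᴴ B`, Löwner-Heinz for `mpow`
-/

set_option autoImplicit false

open scoped BigOperators ComplexOrder Kronecker

namespace Pool.Agent.Lib_helper55.AAN

open Matrix Polynomial Pool.Agent.Lib_helper98.Renyi

section

variable {ι μ : Type*} [Fintype ι] [DecidableEq ι] [Fintype μ] [DecidableEq μ]

theorem pow_intertwine (B : Matrix μ ι ℂ) (n : ℕ) :
    (B * Bᴴ) ^ n * B = B * (Bᴴ * B) ^ n := by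
  induction n with
  | zero => simp
  | succ n ih =>
    rw [pow_succ, pow_succ', Matrix.mul_assoc, Matrix.mul_assoc,
      ← Matrix.mul_assoc ((B * Bᴴ) ^ n) B, ih]
    rw [Matrix.mul_assoc, Matrix.mul_assoc, ← Matrix.mul_assoc Bᴴ B,
      ← pow_succ' (Bᴴ * B) n, ← pow_succ (Bᴴ * B) n]

theorem aeval_intertwine (B : Matrix μ ι ℂ) (p : ℝ[X]) :
    aeval (B * Bᴴ) p * B = B * aeval (Bᴴ * B) p := by
  induction p using Polynomial.induction_on' with
  | add p q hp hq => rw [map_add, map_add, Matrix.add_mul, Matrix.mul_add, hp, hq]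
  | monomial n a =>
    rw [aeval_monomial, aeval_monomial, Algebra.algebraMap_eq_smul_one,
      Algebra.algebraMap_eq_smul_one, smul_mul_assoc, smul_mul_assoc, one_mul, one_mul,
      Matrix.smul_mul, pow_intertwine, Matrix.mul_smul]

theorem spec_nonneg {A : Matrix μ μ ℂ} (hA : A.PosSemidef) {x : ℝ} (hx : x ∈ spectrum ℝ A) :
    0 ≤ x := by
  rw [hA.1.spectrum_real_eq_range_eigenvalues] at hx
  obtain ⟨i, rfl⟩ := hx
  exact hA.eigenvalues_nonneg i

/-- `B (Bᴴ B)^(-t) Bᴴ = (B Bᴴ)^(1-t)` -/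
theorem mul_mpow_mul (B : Matrix μ ι ℂ) (t : ℝ) :
    B * mpow (Bᴴ * B) t * Bᴴ = mpow (B * Bᴴ) (t + 1) := by
  classical
  obtain ⟨p, hp⟩ := exists_poly_eq
    ((spectrum_finite (Bᴴ * B)).toFinset ∪ (spectrum_finite (B * Bᴴ)).toFinset) (supPow t)
  have h1 : mpow (Bᴴ * B) t = aeval (Bᴴ * B) p :=
    cfc_eq_aeval (Matrix.isHermitian_conjTranspose_mul_self B) _ p fun x hx =>
      hp x (Finset.mem_union_left _ (by simpa using hx))
  have hT := Matrix.posSemidef_self_mul_conjTranspose B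
  have h2 : mpow (B * Bᴴ) (t + 1) = aeval (B * Bᴴ) (p * X) :=
    cfc_eq_aeval (Matrix.isHermitian_mul_conjTranspose_self B) _ (p * X) fun x hx => by
      rw [eval_mul, eval_X, hp x (Finset.mem_union_right _ (by simpa using hx)),
        supPow_add (spec_nonneg hT hx), supPow_one]
  rw [h1, h2, map_mul, aeval_X, ← aeval_intertwine, Matrix.mul_assoc]

end

section LH

open scoped MatrixOrder Matrix.Norms.L2Operator

variable {μ : Type*} [Fintype μ] [DecidableEq μ]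

/-- Löwner-Heinz -/
theorem mpow_mono {s : ℝ} (h0 : 0 < s) (h1 : s ≤ 1) {A B : Matrix μ μ ℂ} (hA : A.PosSemidef)
    (h : (B - A).PosSemidef) : (mpow B s - mpow A s).PosSemidef := by
  have hA' : (0 : Matrix μ μ ℂ) ≤ A := hA.nonneg
  have hAB : A ≤ B := h
  have hB' : (0 : Matrix μ μ ℂ) ≤ B := hA'.trans hAB
  have h2 := CFC.rpow_le_rpow (A := Matrix μ μ ℂ) ⟨h0.le, h1⟩ hAB
  rw [CFC.rpow_eq_cfc_real hA', CFC.rpow_eq_cfc_real hB'] at h2
  have e : (supPow s) = fun x : ℝ => x ^ s := by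
    funext x
    exact supPow_of_pos_exp h0.ne'
  unfold mpow
  rw [e]
  exact h2

end LH

section conj

variable {μ : Type*} [Fintype μ] [DecidableEq μ]

theorem mpow_conj {A J : Matrix μ μ ℂ} (hA : A.PosSemidef) (hJ : Jᴴ * J = 1) (s : ℝ) :
    mpow (J * A * Jᴴ) s = J * mpow A s * Jᴴ := by
  obtain ⟨U, c, hU, -, hc, rfl⟩ := exists_spectral_nonneg hA
  have e : J * (U * diagonal (fun i => (c i : ℂ)) * Uᴴ) * Jᴴ =
      (J * U) * diagonal (fun i => (c i : ℂ)) * (J * U)ᴴ := by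
    rw [conjTranspose_mul]
    simp only [Matrix.mul_assoc]
  have hJU : (J * U)ᴴ * (J * U) = 1 := by
    rw [conjTranspose_mul, Matrix.mul_assoc, ← Matrix.mul_assoc Jᴴ, hJ, Matrix.one_mul, hU]
  rw [e, mpow_conj_diagonal _ _ hJU, mpow_conj_diagonal _ U hU, conjTranspose_mul]
  simp only [Matrix.mul_assoc]

/-- from `(1+c) T ≥ (1-c) J T Jᴴ` to the `q`-th powers, `0 < q ≤ 1` -/
theorem lh_apart {T J : Matrix μ μ ℂ} (hT : T.PosSemidef) (hJ : Jᴴ * J = 1) {c q : ℝ}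
    (h0 : 0 ≤ c) (h1 : c ≤ 1) (hq : 0 < q) (hq1 : q ≤ 1)
    (h : (((1 + c : ℝ) : ℂ) • T - ((1 - c : ℝ) : ℂ) • (J * T * Jᴴ)).PosSemidef) :
    ((((1 + c) ^ q : ℝ) : ℂ) • mpow T q -
      (((1 - c) ^ q : ℝ) : ℂ) • (J * mpow T q * Jᴴ)).PosSemidef := by
  have hTJ : (J * T * Jᴴ).PosSemidef := hT.mul_mul_conjTranspose_same J
  rcases eq_or_lt_of_le h1 with rfl | hc
  · have e : ((1 - 1 : ℝ)) ^ q = 0 := by
      rw [sub_self, Real.zero_rpow hq.ne']
    rw [e, Complex.ofReal_zero, zero_smul, sub_zero]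
    have h2 : (0 : ℂ) ≤ ((((1 + 1) ^ q : ℝ)) : ℂ) := by
      exact_mod_cast (by positivity : (0 : ℝ) ≤ (1 + 1) ^ q)
    exact (mpow_posSemidef hT q).smul h2
  · have hp : (0 : ℝ) < 1 - c := by linarith
    have hp' : (0 : ℝ) < 1 + c := by linarith
    have h3 : ((((1 - c : ℝ) : ℂ) • (J * T * Jᴴ))).PosSemidef := by
      have h2 : (0 : ℂ) ≤ ((1 - c : ℝ) : ℂ) := by exact_mod_cast hp.le
      exact hTJ.smul h2
    have h4 := mpow_mono hq hq1 h3 h
    rw [mpow_smul hT hp', mpow_smul hTJ hp, mpow_conj hT hJ] at h4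
    exact h4

end conj

end Pool.Agent.Lib_helper55.AAN
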