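import Pool.Agent.Lib_helper41.AAN.StDual
import Pool.Agent.Lib_helper55.AAN.Pow

/-!
# The dual of the noise condition: states whose supports are apart

`Apart c σ`: the cosine of the angle between the supports of `σ 0` and `σ 1` is at most `c`.
The dual pair of `(A, D)` is then `c'`-noisy with
`c' = ((1+c)^(1/α) - (1-c)^(1/α)) / ((1+c)^(1/α) + (1-c)^(1/α))`.
-/

set_option autoImplicit false

open scoped BigOperators ComplexOrder Kronecker MatrixOrder Topology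
open MeasureTheory Set Matrix Filter

namespace Pool.Agent.Lib_helper55.AAN

open Pool.Agent.RC Pool.Agent.LDK Pool.Agent.Lib_helper98.Renyi
open Pool.Agent.Lib_helper4.AAN Pool.Agent.Lib_helper11.AAN Pool.Agent.Lib_helper41.AAN

/-- The cosine of the angle between the ranges of `σ 0` and `σ 1` is at most `c`:
`(1 - c) |x + y|² ≤ (1 + c) |x - y|²` for `x` in the range of `σ 0`, `y` in the range of `σ 1`. -/
def Apart {b : Type*} [Fintype b] (c : ℝ) (σ : Fin 2 → Matrix b b ℂ) : Prop :=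
  ∀ u w : b → ℂ, (1 - c) * ∑ i, ‖(σ 0 *ᵥ u + σ 1 *ᵥ w) i‖ ^ 2 ≤
    (1 + c) * ∑ i, ‖(σ 0 *ᵥ u - σ 1 *ᵥ w) i‖ ^ 2

/-- `tanh (artanh c / α)` -/
noncomputable def cang (α c : ℝ) : ℝ :=
  ((1 + c) ^ (1 / α) - (1 - c) ^ (1 / α)) / ((1 + c) ^ (1 / α) + (1 - c) ^ (1 / α))

theorem cang_den_pos {α c : ℝ} (h0 : 0 ≤ c) (h1 : c ≤ 1) :
    0 < (1 + c) ^ (1 / α) + (1 - c) ^ (1 / α) := by
  have a : 0 < (1 + c) ^ (1 / α) := Real.rpow_pos_of_pos (by linarith) _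
  have b : 0 ≤ (1 - c) ^ (1 / α) := Real.rpow_nonneg (by linarith) _
  linarith

theorem cang_nonneg {α c : ℝ} (hα : 0 < α) (h0 : 0 ≤ c) (h1 : c ≤ 1) : 0 ≤ cang α c := by
  unfold cang
  apply div_nonneg _ (cang_den_pos h0 h1).le
  have := Real.rpow_le_rpow (by linarith : 0 ≤ 1 - c) (by linarith : 1 - c ≤ 1 + c)
    (by positivity : 0 ≤ 1 / α)
  linarith

theorem cang_le_one {α c : ℝ} (h0 : 0 ≤ c) (h1 : c ≤ 1) : cang α c ≤ 1 := by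
  unfold cang
  rw [div_le_one (cang_den_pos h0 h1)]
  have b : 0 ≤ (1 - c) ^ (1 / α) := Real.rpow_nonneg (by linarith) _
  linarith

variable {ι κ : Type} [Fintype ι] [DecidableEq ι] [Fintype κ] [DecidableEq κ]

/-- the reflection -/
def Jm (ι : Type) [Fintype ι] [DecidableEq ι] : Matrix (ι ⊕ ι) (ι ⊕ ι) ℂ :=
  fromBlocks 1 0 0 (-1)

theorem Jm_herm : (Jm ι)ᴴ = Jm ι := by
  simp [Jm, fromBlocks_conjTranspose]

theorem Jm_sq : (Jm ι)ᴴ * Jm ι = 1 := by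
  rw [Jm_herm, Jm, fromBlocks_multiply]
  simp

theorem Jm_mul (Y Z : Matrix ι ι ℂ) : Jm ι * fromRows Y Z = fromRows Y (-Z) := by
  rw [Jm, fromBlocks_mul_fromRows]
  simp

theorem sq_norm_eq {n : Type} [Fintype n] (v : n → ℂ) :
    (star v ⬝ᵥ v) = ((∑ i, ‖v i‖ ^ 2 : ℝ) : ℂ) := by
  simp only [dotProduct, Pi.star_apply, RCLike.star_def, Complex.conj_mul']
  push_cast
  rfl

omit [DecidableEq ι] in
theorem quad (B : Matrix (ι ⊕ ι) ι ℂ) (x : ι ⊕ ι → ℂ) :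
    star x ⬝ᵥ ((B * Bᴴ) *ᵥ x) = ((∑ i, ‖(Bᴴ *ᵥ x) i‖ ^ 2 : ℝ) : ℂ) := by
  rw [← sq_norm_eq, ← mulVec_mulVec, dotProduct_mulVec, star_mulVec, conjTranspose_conjTranspose]

theorem half_mul {M : Matrix ι ι ℂ} (hM : M.PosSemidef) (v : ι → ℂ) :
    mpow M (1 / 2) *ᵥ v = M *ᵥ (mpow M (-(1 / 2)) *ᵥ v) := by
  have h : mpow M (1 / 2) = M * mpow M (-(1 / 2)) := by
    have h1 := mpow_add hM 1 (-(1 / 2))
    rw [mpow_one hM] at h1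
    rw [← h1]
    congr 1
    norm_num
  rw [h, mulVec_mulVec]

/-- the hypothesis in terms of `T = B Bᴴ` -/
theorem apart_psd {σ : Fin 2 → Matrix ι ι ℂ} (h : ∀ x, IsDensity (σ x)) {c : ℝ}
    (ha : Apart c σ) :
    (((1 + c : ℝ) : ℂ) • (fromRows (mpow (σ 1) (1 / 2)) (mpow (σ 0) (1 / 2)) *
        (fromRows (mpow (σ 1) (1 / 2)) (mpow (σ 0) (1 / 2)))ᴴ) -
      ((1 - c : ℝ) : ℂ) • (Jm ι * (fromRows (mpow (σ 1) (1 / 2)) (mpow (σ 0) (1 / 2)) *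
        (fromRows (mpow (σ 1) (1 / 2)) (mpow (σ 0) (1 / 2)))ᴴ) * (Jm ι)ᴴ)).PosSemidef := by
  set B := fromRows (mpow (σ 1) (1 / 2)) (mpow (σ 0) (1 / 2)) with hB
  have e : Jm ι * (B * Bᴴ) * (Jm ι)ᴴ = (Jm ι * B) * (Jm ι * B)ᴴ := by
    rw [conjTranspose_mul]
    simp only [Matrix.mul_assoc]
  rw [e]
  refine Matrix.PosSemidef.of_dotProduct_mulVec_nonneg ?_ fun x => ?_
  · have h1 := Matrix.isHermitian_mul_conjTranspose_self B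
    have h2 := Matrix.isHermitian_mul_conjTranspose_self (Jm ι * B)
    rw [Matrix.IsHermitian, conjTranspose_sub, conjTranspose_smul, conjTranspose_smul, h1.eq,
      h2.eq]
    simp
  · rw [sub_mulVec, smul_mulVec, smul_mulVec, dotProduct_sub, dotProduct_smul, dotProduct_smul,
      quad, quad]
    have f1 : Bᴴ *ᵥ x = mpow (σ 1) (1 / 2) *ᵥ (fun i => x (Sum.inl i)) +
        mpow (σ 0) (1 / 2) *ᵥ (fun i => x (Sum.inr i)) := by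
      rw [hB, conjTranspose_fromRows_eq_fromCols_conjTranspose, mpow_isHermitian (h 0).1,
        mpow_isHermitian (h 1).1, fromCols_mulVec]
      rfl
    have f2 : (Jm ι * B)ᴴ *ᵥ x = mpow (σ 1) (1 / 2) *ᵥ (fun i => x (Sum.inl i)) -
        mpow (σ 0) (1 / 2) *ᵥ (fun i => x (Sum.inr i)) := by
      rw [hB, Jm_mul, conjTranspose_fromRows_eq_fromCols_conjTranspose, conjTranspose_neg,
        mpow_isHermitian (h 0).1, mpow_isHermitian (h 1).1, fromCols_mulVec, neg_mulVec,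
        sub_eq_add_neg]
      rfl
    rw [f1, f2, half_mul (h 0).1, half_mul (h 1).1]
    set p := mpow (σ 1) (-(1 / 2)) *ᵥ (fun i => x (Sum.inl i))
    set q := mpow (σ 0) (-(1 / 2)) *ᵥ (fun i => x (Sum.inr i))
    have h3 := ha q (-p)
    have g1 : σ 0 *ᵥ q + σ 1 *ᵥ (-p) = -(σ 1 *ᵥ p - σ 0 *ᵥ q) := by
      rw [mulVec_neg]; abel
    have g2 : σ 0 *ᵥ q - σ 1 *ᵥ (-p) = σ 1 *ᵥ p + σ 0 *ᵥ q := by
      rw [mulVec_neg]; abel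
    rw [g1, g2] at h3
    simp only [Pi.neg_apply, norm_neg] at h3
    rw [smul_eq_mul, smul_eq_mul, ← Complex.ofReal_mul, ← Complex.ofReal_mul,
      ← Complex.ofReal_sub]
    exact_mod_cast (sub_nonneg.2 h3)

/-- `(B Bᴴ)^(1/α)` is a multiple of `W Wᴴ` -/
theorem mpow_T {σ : Fin 2 → Matrix ι ι ℂ} (h : ∀ x, IsDensity (σ x)) {α : ℝ} (hα : 0 < α) :
    mpow (fromRows (mpow (σ 1) (1 / 2)) (mpow (σ 0) (1 / 2)) *
        (fromRows (mpow (σ 1) (1 / 2)) (mpow (σ 0) (1 / 2)))ᴴ) (1 / α) =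
      (((2 : ℝ) ^ (1 / α - 1) : ℝ) : ℂ) •
        (fromRows (mpow (σ 1) (1 / 2) * mpow (rhoOf σ) ((1 - α) / (2 * α)))
            (mpow (σ 0) (1 / 2) * mpow (rhoOf σ) ((1 - α) / (2 * α))) *
          (fromRows (mpow (σ 1) (1 / 2) * mpow (rhoOf σ) ((1 - α) / (2 * α)))
            (mpow (σ 0) (1 / 2) * mpow (rhoOf σ) ((1 - α) / (2 * α))))ᴴ) := by
  have hρ := rhoOf_posSemidef h
  have hh : ∀ x, mpow (σ x) (1 / 2) * mpow (σ x) (1 / 2) = σ x := by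
    intro x
    rw [← mpow_add (h x).1, show (1 / 2 + 1 / 2 : ℝ) = 1 by norm_num, mpow_one (h x).1]
  have h1 := mul_mpow_mul (fromRows (mpow (σ 1) (1 / 2)) (mpow (σ 0) (1 / 2))) (1 / α - 1)
  have h2 : (fromRows (mpow (σ 1) (1 / 2)) (mpow (σ 0) (1 / 2)))ᴴ *
      fromRows (mpow (σ 1) (1 / 2)) (mpow (σ 0) (1 / 2)) = ((2 : ℝ) : ℂ) • rhoOf σ := by
    rw [conjTranspose_fromRows_eq_fromCols_conjTranspose, fromCols_mul_fromRows,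
      mpow_isHermitian (h 0).1, mpow_isHermitian (h 1).1, hh, hh, rhoOf, smul_smul]
    norm_num
    rw [add_comm]
  rw [h2, mpow_smul hρ (by norm_num), show (1 / α - 1 + 1 : ℝ) = 1 / α by ring] at h1
  rw [← h1, ← fromRows_mul, conjTranspose_mul, mpow_isHermitian hρ]
  have h3 : mpow (rhoOf σ) (1 / α - 1) =
      mpow (rhoOf σ) ((1 - α) / (2 * α)) * mpow (rhoOf σ) ((1 - α) / (2 * α)) := by
    rw [← mpow_add hρ]
    congr 1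
    field_simp
    ring
  rw [h3, Matrix.mul_smul, Matrix.smul_mul]
  simp only [Matrix.mul_assoc]

/-- the dual pair of a pair with supports apart is noisy -/
theorem exists_dual_noise {σ : Fin 2 → Matrix ι ι ℂ} (h : ∀ x, IsDensity (σ x)) {α : ℝ}
    (hα : 1 < α) {c : ℝ} (h0 : 0 ≤ c) (h1 : c ≤ 1) (ha : Apart c σ) :
    ∃ Y Z : Matrix ι ι ℂ, Aop α σ - Dop α σ = Yᴴ * Y ∧ Aop α σ + Dop α σ = Zᴴ * Z ∧
      (((cang α c : ℝ) : ℂ) • DUAL.Ad Y Z - DUAL.Dd Y Z).PosSemidef ∧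
      (((cang α c : ℝ) : ℂ) • DUAL.Ad Y Z + DUAL.Dd Y Z).PosSemidef := by
  have hα0 : 0 < α := by linarith
  have hρ := rhoOf_posSemidef h
  have hh : ∀ x, mpow (σ x) (1 / 2) * mpow (σ x) (1 / 2) = σ x := by
    intro x
    rw [← mpow_add (h x).1, show (1 / 2 + 1 / 2 : ℝ) = 1 by norm_num, mpow_one (h x).1]
  set R := mpow (rhoOf σ) ((1 - α) / (2 * α)) with hR
  have hRH : Rᴴ = R := mpow_isHermitian hρ _
  set Y := mpow (σ 1) (1 / 2) * R with hY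
  set Z := mpow (σ 0) (1 / 2) * R with hZ
  refine ⟨Y, Z, ?_, ?_, ?_⟩
  · rw [A_sub_D h hα0, ← hR, hY, conjTranspose_mul, hRH, mpow_isHermitian (h 1).1]
    calc R * σ 1 * R = R * (mpow (σ 1) (1 / 2) * mpow (σ 1) (1 / 2)) * R := by rw [hh]
      _ = _ := by simp only [Matrix.mul_assoc]
  · rw [A_add_D h hα0, ← hR, hZ, conjTranspose_mul, hRH, mpow_isHermitian (h 0).1]
    calc R * σ 0 * R = R * (mpow (σ 0) (1 / 2) * mpow (σ 0) (1 / 2)) * R := by rw [hh]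
      _ = _ := by simp only [Matrix.mul_assoc]
  have hT := Matrix.posSemidef_self_mul_conjTranspose
    (fromRows (mpow (σ 1) (1 / 2)) (mpow (σ 0) (1 / 2)))
  have key := lh_apart hT Jm_sq h0 h1 (by positivity : 0 < 1 / α)
    (by rw [div_le_one hα0]; exact hα.le) (apart_psd h ha)
  rw [mpow_T h hα0, ← hR, ← hY, ← hZ, ← DUAL.Ad_add_Dd] at key
  have hJ : Jm ι * (DUAL.Ad Y Z + DUAL.Dd Y Z) * (Jm ι)ᴴ = DUAL.Ad Y Z - DUAL.Dd Y Z := by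
    rw [DUAL.Ad_add_Dd, DUAL.Ad_sub_Dd, ← Jm_mul, conjTranspose_mul]
    simp only [Matrix.mul_assoc]
  have hJ' : Jm ι * (DUAL.Ad Y Z - DUAL.Dd Y Z) * (Jm ι)ᴴ = DUAL.Ad Y Z + DUAL.Dd Y Z := by
    rw [← hJ]
    have e : Jm ι * Jm ι = 1 := by
      have := Jm_sq (ι := ι)
      rwa [Jm_herm] at this
    rw [Jm_herm]
    calc Jm ι * (Jm ι * (DUAL.Ad Y Z + DUAL.Dd Y Z) * Jm ι) * Jm ι
        = (Jm ι * Jm ι) * (DUAL.Ad Y Z + DUAL.Dd Y Z) * (Jm ι * Jm ι) := by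
          simp only [Matrix.mul_assoc]
      _ = _ := by rw [e, Matrix.one_mul, Matrix.mul_one]
  rw [Matrix.mul_smul, Matrix.smul_mul, hJ] at key
  obtain ⟨a, hadef⟩ : ∃ a : ℝ, a = (1 + c) ^ (1 / α) := ⟨_, rfl⟩
  obtain ⟨b, hbdef⟩ : ∃ b : ℝ, b = (1 - c) ^ (1 / α) := ⟨_, rfl⟩
  have hab : 0 < a + b := by rw [hadef, hbdef]; exact cang_den_pos h0 h1
  have hr : (0 : ℝ) < 2 ^ (1 / α - 1) := Real.rpow_pos_of_pos (by norm_num) _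
  have hc' : cang α c = (a - b) / (a + b) := by rw [cang, hadef, hbdef]
  rw [← hadef, ← hbdef] at key
  generalize (2 : ℝ) ^ (1 / α - 1) = r at key hr
  have hplus : (((cang α c : ℝ) : ℂ) • DUAL.Ad Y Z + DUAL.Dd Y Z).PosSemidef := by
    have hs : (0 : ℂ) ≤ (((1 / (r * (a + b)) : ℝ)) : ℂ) := by
      exact_mod_cast (by positivity : (0 : ℝ) ≤ 1 / (r * (a + b)))
    have k2 := key.smul hs
    have e : (((1 / (r * (a + b)) : ℝ)) : ℂ) • ((a : ℂ) • ((r : ℂ) •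
        (DUAL.Ad Y Z + DUAL.Dd Y Z)) - (b : ℂ) • ((r : ℂ) • (DUAL.Ad Y Z - DUAL.Dd Y Z))) =
        ((cang α c : ℝ) : ℂ) • DUAL.Ad Y Z + DUAL.Dd Y Z := by
      have hab' : ((a : ℂ) + (b : ℂ)) ≠ 0 := by exact_mod_cast hab.ne'
      have hr' : (r : ℂ) ≠ 0 := by exact_mod_cast hr.ne'
      rw [hc']
      ext i j
      simp only [Matrix.smul_apply, Matrix.sub_apply, Matrix.add_apply, smul_eq_mul]
      push_cast
      field_simp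
      ring
    rwa [e] at k2
  refine ⟨?_, hplus⟩
  have k3 := hplus.mul_mul_conjTranspose_same (Jm ι)
  have e1 : Jm ι * DUAL.Ad Y Z * (Jm ι)ᴴ = DUAL.Ad Y Z := by
    have e2 : DUAL.Ad Y Z = (1 / 2 : ℂ) • ((DUAL.Ad Y Z + DUAL.Dd Y Z) +
        (DUAL.Ad Y Z - DUAL.Dd Y Z)) := by module
    calc Jm ι * DUAL.Ad Y Z * (Jm ι)ᴴ = (1 / 2 : ℂ) •
          (Jm ι * (DUAL.Ad Y Z + DUAL.Dd Y Z) * (Jm ι)ᴴ +
            Jm ι * (DUAL.Ad Y Z - DUAL.Dd Y Z) * (Jm ι)ᴴ) := by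
          rw [← Matrix.add_mul, ← Matrix.mul_add, ← Matrix.smul_mul, ← Matrix.mul_smul, ← e2]
      _ = DUAL.Ad Y Z := by rw [hJ, hJ']; module
  have e3 : Jm ι * DUAL.Dd Y Z * (Jm ι)ᴴ = -DUAL.Dd Y Z := by
    have e4 : DUAL.Dd Y Z = (DUAL.Ad Y Z + DUAL.Dd Y Z) - DUAL.Ad Y Z := by abel
    calc Jm ι * DUAL.Dd Y Z * (Jm ι)ᴴ = Jm ι * (DUAL.Ad Y Z + DUAL.Dd Y Z) * (Jm ι)ᴴ -
          Jm ι * DUAL.Ad Y Z * (Jm ι)ᴴ := by
          rw [← Matrix.sub_mul, ← Matrix.mul_sub, ← e4]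
      _ = -DUAL.Dd Y Z := by rw [hJ, e1]; abel
  rw [Matrix.mul_add, Matrix.add_mul, Matrix.mul_smul, Matrix.smul_mul, e1, e3,
    ← sub_eq_add_neg] at k3
  exact k3

/-- the duality clause from an inequality at the dual pairs -/
theorem dual_clause_at {α N : ℝ} (hα : 1 < α) {A₁ D₁ Y₁ Z₁ : Matrix ι ι ℂ}
    {A₂ D₂ Y₂ Z₂ : Matrix κ κ ℂ} (h₁ : IsPsdPair A₁ D₁) (h₂ : IsPsdPair A₂ D₂)
    (hY₁ : A₁ - D₁ = Y₁ᴴ * Y₁) (hZ₁ : A₁ + D₁ = Z₁ᴴ * Z₁)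
    (hY₂ : A₂ - D₂ = Y₂ᴴ * Y₂) (hZ₂ : A₂ + D₂ = Z₂ᴴ * Z₂)
    (h : N * (G α (DUAL.Ad Y₁ Z₁) (DUAL.Dd Y₁ Z₁) * G α (DUAL.Ad Y₂ Z₂) (DUAL.Dd Y₂ Z₂)) ≤
      (2 ^ (α - 1) - 1) ^ 2 *
        G α (DUAL.Ad Y₁ Z₁ ⊗ₖ DUAL.Ad Y₂ Z₂) (DUAL.Dd Y₁ Z₁ ⊗ₖ DUAL.Dd Y₂ Z₂)) :
    G α A₁ D₁ * G α A₂ D₂ - (1 - N / (2 ^ (α - 1) - 1)) / 2 ^ (α - 1) *
      (((2 ^ (α - 1) - 1) * Pool.Agent.RC.trF (fun x => x ^ α) A₁ - G α A₁ D₁) *
        ((2 ^ (α - 1) - 1) * Pool.Agent.RC.trF (fun x => x ^ α) A₂ - G α A₂ D₂)) ≤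
      (2 ^ (α - 1) - 1) * G α (A₁ ⊗ₖ A₂) (D₁ ⊗ₖ D₂) := by
  have hα0 : 0 < α := by linarith
  have e := DUAL.duality hα0 h₁ h₂ hY₁ hZ₁ hY₂ hZ₂
  have g1 := G_dual' hα0 h₁.pos hY₁ hZ₁
  have g2 := G_dual' hα0 h₂.pos hY₂ hZ₂
  have hq : (1 : ℝ) < 2 ^ (α - 1) := Real.one_lt_rpow (by norm_num) (by linarith)
  obtain ⟨q, hqd⟩ : ∃ q : ℝ, q = 2 ^ (α - 1) := ⟨_, rfl⟩
  rw [← hqd] at e h g1 g2 hq ⊢
  generalize G α (DUAL.Ad Y₁ Z₁ ⊗ₖ DUAL.Ad Y₂ Z₂) (DUAL.Dd Y₁ Z₁ ⊗ₖ DUAL.Dd Y₂ Z₂) = g at e h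
  generalize G α (A₁ ⊗ₖ A₂) (D₁ ⊗ₖ D₂) = G12 at e ⊢
  rw [g1, g2] at e h
  generalize (q - 1) * Pool.Agent.RC.trF (fun x => x ^ α) A₁ - G α A₁ D₁ = u at e h ⊢
  generalize (q - 1) * Pool.Agent.RC.trF (fun x => x ^ α) A₂ - G α A₂ D₂ = v at e h ⊢
  generalize G α A₁ D₁ * G α A₂ D₂ = m at e ⊢
  have hk : 0 < q - 1 := by linarith
  have h1 : N / (q - 1) * (4 * (u * v)) ≤ (q - 1) * g := by
    rw [div_mul_eq_mul_div, div_le_iff₀ hk]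
    nlinarith [h]
  have h2 : -((1 - N / (q - 1)) * (4 * (u * v))) ≤ 4 * q * ((q - 1) * G12 - m) := by
    nlinarith [h1, e]
  have hq0 : 0 < q := by linarith
  have h3 : (1 - N / (q - 1)) / q * (u * v) * q = (1 - N / (q - 1)) * (u * v) := by
    field_simp
  by_contra hcon
  push Not at hcon
  have h4 : ((q - 1) * G12) * q < (m - (1 - N / (q - 1)) / q * (u * v)) * q :=
    mul_lt_mul_of_pos_right hcon hq0
  have h5 : (m - (1 - N / (q - 1)) / q * (u * v)) * q = m * q - (1 - N / (q - 1)) * (u * v) := by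
    rw [sub_mul, h3]
  rw [h5] at h4
  nlinarith [h2, h4]

/-- **States with supports apart**, from any inequality for strict pairs. -/
theorem states_apart_gen {α c₁ c₂ N H : ℝ} (hα : 1 < α) (hc₁ : 0 ≤ c₁) (hc₁' : c₁ ≤ 1)
    (hc₂ : 0 ≤ c₂) (hc₂' : c₂ ≤ 1) (hH : 0 < H)
    (hS : StrictN α (cang α c₁) (cang α c₂) N H)
    {σ₁ : Fin 2 → Matrix ι ι ℂ} {σ₂ : Fin 2 → Matrix κ κ ℂ}
    (h₁ : ∀ x, IsDensity (σ₁ x)) (h₂ : ∀ x, IsDensity (σ₂ x))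
    (a₁ : Apart c₁ σ₁) (a₂ : Apart c₂ σ₂) :
    (Kof α (condH α (cqState σ₁)) - 2 ^ (1 - α)) *
        (Kof α (condH α (cqState σ₂)) - 2 ^ (1 - α)) -
      2 ^ (1 - α) * (1 - N * kp α / H) *
        ((1 - Kof α (condH α (cqState σ₁))) * (1 - Kof α (condH α (cqState σ₂)))) ≤
    (1 - 2 ^ (1 - α)) * (Kof α (Hsum α σ₁ σ₂) - 2 ^ (1 - α)) ∧
    (H ≤ N * kp α → Hsum α σ₁ σ₂ ≤ Fval α σ₁ σ₂) := by
  have h0 : 0 < α := by linarith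
  have p₁ := psdPair_state h₁ h0
  have p₂ := psdPair_state h₂ h0
  have t₁ : Pool.Agent.RC.trF (fun x => x ^ α) (Aop α σ₁) = 1 := by
    rw [trF_rpow_eq_trPow h0 p₁.pos.1, trPow_Aop h₁ h0]
  have t₂ : Pool.Agent.RC.trF (fun x => x ^ α) (Aop α σ₂) = 1 := by
    rw [trF_rpow_eq_trPow h0 p₂.pos.1, trPow_Aop h₂ h0]
  obtain ⟨Y₁, Z₁, y₁, z₁, m₁, q₁⟩ := exists_dual_noise h₁ hα hc₁ hc₁' a₁
  obtain ⟨Y₂, Z₂, y₂, z₂, m₂, q₂⟩ := exists_dual_noise h₂ hα hc₂ hc₂' a₂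
  have s₁ := cang_nonneg h0 hc₁ hc₁'
  have s₂ := cang_nonneg h0 hc₂ hc₂'
  have key := psd_of_strictN h0 s₁ s₂ hS (DUAL.isPsdPair_dual Y₁ Z₁) m₁ q₁
    (DUAL.isPsdPair_dual Y₂ Z₂) m₂ q₂
  have hk := kp_pos hα
  have hkd : kp α = 2 ^ (α - 1) - 1 := rfl
  have key2 : (N * kp α ^ 2 / H) * (G α (DUAL.Ad Y₁ Z₁) (DUAL.Dd Y₁ Z₁) *
      G α (DUAL.Ad Y₂ Z₂) (DUAL.Dd Y₂ Z₂)) ≤ (2 ^ (α - 1) - 1) ^ 2 *
        G α (DUAL.Ad Y₁ Z₁ ⊗ₖ DUAL.Ad Y₂ Z₂) (DUAL.Dd Y₁ Z₁ ⊗ₖ DUAL.Dd Y₂ Z₂) := by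
    rw [← hkd, div_mul_eq_mul_div, div_le_iff₀ hH]
    have := mul_le_mul_of_nonneg_left key (sq_nonneg (kp α))
    linarith [this]
  have h := dual_clause_at hα p₁ p₂ y₁ z₁ y₂ z₂ key2
  have eN : N * kp α ^ 2 / H / (2 ^ (α - 1) - 1) = N * kp α / H := by
    rw [← hkd]
    field_simp
  rw [t₁, t₂, mul_one] at h
  have hfin := dual_clause_K hα h (K₁ := Kof α (condH α (cqState σ₁)))
    (K₂ := Kof α (condH α (cqState σ₂))) (K₁₂ := Kof α (Hsum α σ₁ σ₂))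
    (by rw [Kof_condH h₁ h0 hα.ne', p₁.Gfun_eq h0])
    (by rw [Kof_condH h₂ h0 hα.ne', p₂.Gfun_eq h0])
    (by rw [Kof_Hsum h₁ h₂ h0 hα.ne', (p₁.kron p₂).Gfun_eq h0])
  rw [eN] at hfin h
  refine ⟨hfin, fun hle => ?_⟩
  refine Hsum_le_Fval h₁ h₂ h0 hα.ne' ?_
  rw [p₁.Gfun_eq h0, p₂.Gfun_eq h0, (p₁.kron p₂).Gfun_eq h0]
  have u₁ : 0 ≤ (2 ^ (α - 1) - 1) - G α (Aop α σ₁) (Dop α σ₁) := by
    have g := G_dual' h0 p₁.pos y₁ z₁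
    have d := DUAL.isPsdPair_dual Y₁ Z₁
    have g2 := Gfun_nonneg hα.le d.pos d.add d.sub
    rw [d.Gfun_eq h0] at g2
    rw [g, t₁, mul_one] at g2
    linarith
  have u₂ : 0 ≤ (2 ^ (α - 1) - 1) - G α (Aop α σ₂) (Dop α σ₂) := by
    have g := G_dual' h0 p₂.pos y₂ z₂
    have d := DUAL.isPsdPair_dual Y₂ Z₂
    have g2 := Gfun_nonneg hα.le d.pos d.add d.sub
    rw [d.Gfun_eq h0] at g2
    rw [g, t₂, mul_one] at g2
    linarith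
  have hr : (1 - N * kp α / H) ≤ 0 := by
    rw [sub_nonpos, le_div_iff₀ hH]
    linarith
  have hq : (0 : ℝ) < 2 ^ (α - 1) := Real.rpow_pos_of_pos (by norm_num) _
  have h5 : (1 - N * kp α / H) / 2 ^ (α - 1) *
      (((2 ^ (α - 1) - 1) - G α (Aop α σ₁) (Dop α σ₁)) *
        ((2 ^ (α - 1) - 1) - G α (Aop α σ₂) (Dop α σ₂))) ≤ 0 :=
    mul_nonpos_of_nonpos_of_nonneg (div_nonpos_of_nonpos_of_nonneg hr hq.le) (mul_nonneg u₁ u₂)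
  linarith

/-- **States with supports apart**, with the constants of the theorem. -/
theorem states_apart {α c₁ c₂ : ℝ} (hα : 1 < α) (hc₁ : 0 ≤ c₁) (hc₁' : c₁ ≤ 1)
    (hc₂ : 0 ≤ c₂) (hc₂' : c₂ ≤ 1)
    (hS : StrictN α (cang α c₁) (cang α c₂) (nn α) (hh α (cang α c₁) * hh α (cang α c₂)))
    {σ₁ : Fin 2 → Matrix ι ι ℂ} {σ₂ : Fin 2 → Matrix κ κ ℂ}
    (h₁ : ∀ x, IsDensity (σ₁ x)) (h₂ : ∀ x, IsDensity (σ₂ x))
    (a₁ : Apart c₁ σ₁) (a₂ : Apart c₂ σ₂) :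
    (Kof α (condH α (cqState σ₁)) - 2 ^ (1 - α)) *
        (Kof α (condH α (cqState σ₂)) - 2 ^ (1 - α)) -
      2 ^ (1 - α) * (1 - nn α * kp α / (hh α (cang α c₁) * hh α (cang α c₂))) *
        ((1 - Kof α (condH α (cqState σ₁))) * (1 - Kof α (condH α (cqState σ₂)))) ≤
    (1 - 2 ^ (1 - α)) * (Kof α (Hsum α σ₁ σ₂) - 2 ^ (1 - α)) ∧
    (hh α (cang α c₁) * hh α (cang α c₂) ≤ nn α * kp α → Hsum α σ₁ σ₂ ≤ Fval α σ₁ σ₂) := by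
  have h0 : 0 < α := by linarith
  exact states_apart_gen hα hc₁ hc₁' hc₂ hc₂'
    (mul_pos (hh_pos hα (cang_nonneg h0 hc₁ hc₁') (cang_le_one hc₁ hc₁'))
      (hh_pos hα (cang_nonneg h0 hc₂ hc₂') (cang_le_one hc₂ hc₂'))) hS h₁ h₂ a₁ a₂

omit [DecidableEq ι] in
/-- every pair is `Apart 1` -/
theorem apart_one {σ : Fin 2 → Matrix ι ι ℂ} : Apart 1 σ := by
  intro u w
  have h : 0 ≤ ∑ i, ‖(σ 0 *ᵥ u - σ 1 *ᵥ w) i‖ ^ 2 := Finset.sum_nonneg fun _ _ => by positivity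
  linarith

theorem cang_one {α : ℝ} (hα : 0 < α) : cang α 1 = 1 := by
  have e : ((1 : ℝ) - 1) ^ (1 / α) = 0 := by
    rw [sub_self, Real.zero_rpow (by positivity)]
  rw [cang, e, sub_zero, add_zero, div_self]
  exact (Real.rpow_pos_of_pos (by norm_num) _).ne'

end Pool.Agent.Lib_helper55.AAN
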